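import Mathlib

set_option autoImplicit false

open Complex

namespace Pool.Agent.TH317.J369

/-- the theta function of the square lattice -/
noncomputable def th (u : ℂ) : ℂ := jacobiTheta₂ u Complex.I

theorem I_im_pos : 0 < (Complex.I).im := by simp

theorem th_diff : Differentiable ℂ th := fun z =>
  differentiableAt_jacobiTheta₂_fst z I_im_pos

theorem th_one (u : ℂ) : th (u + 1) = th u := jacobiTheta₂_add_left u I

theorem th_I (u : ℂ) : th (u + I) = cexp (-Real.pi * I * (I + 2 * u)) * th u :=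
  jacobiTheta₂_add_left' u I

theorem th_zero_ne : th 0 ≠ 0 := by
  have h := hasSum_jacobiTheta₂_term 0 (τ := I) I_im_pos
  have hre : ∀ n : ℤ, jacobiTheta₂_term n 0 I = ((Real.exp (-Real.pi * n ^ 2) : ℝ) : ℂ) := by
    intro n
    rw [jacobiTheta₂_term, Complex.ofReal_exp]
    congr 1
    push_cast
    have : (I : ℂ) * I = -1 := I_mul_I
    linear_combination (Real.pi * (n : ℂ) ^ 2) * this
  simp_rw [hre] at h
  have h2 := Complex.hasSum_re h
  simp only [Complex.ofReal_re] at h2
  have hpos : 0 < (jacobiTheta₂ 0 I).re := by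
    rw [← h2.tsum_eq]
    exact h2.summable.tsum_pos (fun n => (Real.exp_pos _).le) 0 (Real.exp_pos _)
  intro h0
  have : (jacobiTheta₂ 0 I).re = 0 := by
    have : jacobiTheta₂ 0 I = 0 := h0
    rw [this]; simp
  linarith

/-- the twisted sections -/
noncomputable def GG (e : ℤ) (s u : ℂ) : ℂ :=
  cexp (2 * Real.pi * I * u * e / 6) * th (u + s + e * I / 6) * th (u - s)

theorem GG_diff (e : ℤ) (s : ℂ) : Differentiable ℂ (GG e s) := by
  have h1 : Differentiable ℂ (fun u : ℂ => th (u + s + e * I / 6)) :=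
    th_diff.comp (by fun_prop)
  have h2 : Differentiable ℂ (fun u : ℂ => th (u - s)) :=
    th_diff.comp (by fun_prop)
  have h3 : Differentiable ℂ (fun u : ℂ => cexp (2 * Real.pi * I * u * e / 6)) := by fun_prop
  exact (h3.mul h1).mul h2

theorem GG_one (e : ℤ) (s u : ℂ) :
    GG e s (u + 1) = cexp (2 * Real.pi * I / 6) ^ e * GG e s u := by
  unfold GG
  have h1 : u + 1 + s + e * I / 6 = (u + s + e * I / 6) + 1 := by ring
  have h2 : u + 1 - s = (u - s) + 1 := by ring
  rw [h1, h2, th_one, th_one, ← Complex.exp_int_mul]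
  have h3 : 2 * Real.pi * I * (u + 1) * e / 6
      = (e : ℂ) * (2 * Real.pi * I / 6) + 2 * Real.pi * I * u * e / 6 := by ring
  rw [h3, Complex.exp_add]
  ring

theorem GG_I (e : ℤ) (s u : ℂ) :
    GG e s (u + I) = cexp (2 * Real.pi - 4 * Real.pi * I * u) * GG e s u := by
  unfold GG
  have h1 : u + I + s + e * I / 6 = (u + s + e * I / 6) + I := by ring
  have h2 : u + I - s = (u - s) + I := by ring
  rw [h1, h2, th_I, th_I]
  have key : cexp (2 * Real.pi * I * (u + I) * e / 6) *
      cexp (-Real.pi * I * (I + 2 * (u + s + e * I / 6))) *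
      cexp (-Real.pi * I * (I + 2 * (u - s)))
      = cexp (2 * Real.pi - 4 * Real.pi * I * u) * cexp (2 * Real.pi * I * u * e / 6) := by
    rw [← Complex.exp_add, ← Complex.exp_add, ← Complex.exp_add]
    congr 1
    have : (I : ℂ) * I = -1 := I_mul_I
    linear_combination (-2 * Real.pi : ℂ) * this
  linear_combination (th (u + s + e * I / 6) * th (u - s)) * key

theorem exists_ne (e : ℤ) (u : ℂ) : ∃ s, GG e s u ≠ 0 := by
  by_contra hcon
  push Not at hcon
  have h1 : AnalyticOnNhd ℂ (fun s : ℂ => th (u + s + e * I / 6)) Set.univ := by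
    have : Differentiable ℂ (fun s : ℂ => th (u + s + e * I / 6)) := th_diff.comp (by fun_prop)
    exact fun z _ => this.analyticAt z
  have h2 : AnalyticOnNhd ℂ (fun s : ℂ => th (u - s)) Set.univ := by
    have : Differentiable ℂ (fun s : ℂ => th (u - s)) := th_diff.comp (by fun_prop)
    exact fun z _ => this.analyticAt z
  have hmul : ∀ s ∈ (Set.univ : Set ℂ),
      (fun s : ℂ => th (u + s + e * I / 6)) s * (fun s : ℂ => th (u - s)) s = 0 := by
    intro s _
    have := hcon s
    unfold GG at this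
    rw [mul_assoc, mul_eq_zero] at this
    rcases this with h | h
    · exact absurd h (Complex.exp_ne_zero _)
    · exact h
  rcases h1.eq_zero_or_eq_zero_of_mul_eq_zero h2 hmul isPreconnected_univ with h | h
  · apply th_zero_ne
    have h5 := h (-u - e * I / 6) (Set.mem_univ _)
    have h6 : u + (-u - e * I / 6) + e * I / 6 = 0 := by ring
    simp only [h6] at h5
    exact h5
  · apply th_zero_ne
    have := h u (Set.mem_univ _)
    simpa using this

theorem exists_finset (e : ℤ) : ∃ t : Finset ℂ, ∀ u ∈ (Set.Icc (0:ℝ) 1 ×ℂ Set.Icc (0:ℝ) 1),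
    ∃ s ∈ t, GG e s u ≠ 0 := by
  have hK : IsCompact (Set.Icc (0:ℝ) 1 ×ℂ Set.Icc (0:ℝ) 1) :=
    isCompact_Icc.reProdIm isCompact_Icc
  obtain ⟨t, ht⟩ := hK.elim_finite_subcover (fun s : ℂ => {u | GG e s u ≠ 0})
    (fun s => isOpen_ne_fun (GG_diff e s).continuous continuous_const)
    (fun u _ => by
      obtain ⟨s, hs⟩ := exists_ne e u
      exact Set.mem_iUnion.mpr ⟨s, hs⟩)
  refine ⟨t, fun u hu => ?_⟩
  have := ht hu
  simp only [Set.mem_iUnion] at this
  obtain ⟨s, hs, hs2⟩ := this
  exact ⟨s, hs, hs2⟩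

/-- main statement -/
theorem core (w : Fin 3 → ℤ) : ∃ (n : ℕ) (S : Fin n → ℂ), ∀ (k : Fin 3) (u : ℂ),
    ∃ j, GG (w k) (S j) u ≠ 0 := by
  classical
  choose t ht using fun k => exists_finset (w k)
  set T : Finset ℂ := Finset.univ.biUnion t with hT
  refine ⟨T.card, fun j => (T.equivFin.symm j : ℂ), fun k u => ?_⟩
  set P : ℂ → Prop := fun u => ∃ s ∈ T, GG (w k) s u ≠ 0 with hP
  have hP1 : Function.Periodic P 1 := by
    intro u
    simp only [hP, eq_iff_iff]
    refine exists_congr fun s => and_congr_right fun _ => ?_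
    rw [GG_one]
    have : cexp (2 * Real.pi * I / 6) ^ (w k) ≠ 0 := zpow_ne_zero _ (Complex.exp_ne_zero _)
    simp [this]
  have hPI : Function.Periodic P I := by
    intro u
    simp only [hP, eq_iff_iff]
    refine exists_congr fun s => and_congr_right fun _ => ?_
    rw [GG_I]
    simp [Complex.exp_ne_zero]
  have hPK : ∀ u ∈ (Set.Icc (0:ℝ) 1 ×ℂ Set.Icc (0:ℝ) 1), P u := by
    intro u hu
    obtain ⟨s, hs, hs2⟩ := ht k u hu
    exact ⟨s, Finset.mem_biUnion.mpr ⟨k, Finset.mem_univ _, hs⟩, hs2⟩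
  have hPu : P u := by
    rw [← hP1.sub_int_mul_eq ⌊u.re⌋, ← hPI.sub_int_mul_eq ⌊u.im⌋]
    apply hPK
    rw [Complex.mem_reProdIm]
    simp only [Complex.sub_re, Complex.sub_im, Complex.mul_re, Complex.mul_im, Complex.intCast_re,
      Complex.intCast_im, Complex.I_re, Complex.I_im, Complex.one_re, Complex.one_im]
    have h1 := Int.floor_le u.re
    have h2 := Int.lt_floor_add_one u.re
    have h3 := Int.floor_le u.im
    have h4 := Int.lt_floor_add_one u.im
    refine ⟨⟨?_, ?_⟩, ?_, ?_⟩ <;> linarith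
  obtain ⟨s, hs, hs2⟩ := hPu
  exact ⟨T.equivFin ⟨s, hs⟩, by simpa using hs2⟩

end Pool.Agent.TH317.J369
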