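import Pool.Agent.TH179.BE.Stm
import Pool.Agent.TH317.J369core

set_option autoImplicit false

open Complex

namespace Pool.Agent.TH317.J369

theorem taskTheta : Pool.Agent.TH179.BE.TaskTheta := by
  obtain ⟨n, S, hS⟩ := core Pool.Agent.TH179.BE.ew
  refine ⟨{
    n := n
    R := fun k u j => GG (Pool.Agent.TH179.BE.ew k) (S j) u
    g := fun u => cexp (2 * Real.pi - 4 * Real.pi * I * u)
    diff := fun k => ?_
    ne := fun k u => ?_
    g_ne := fun u => Complex.exp_ne_zero _
    add_one := fun k u => ?_
    add_I := fun k u => ?_ }⟩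
  · rw [differentiable_pi]
    exact fun j => GG_diff _ _
  · obtain ⟨j, hj⟩ := hS k u
    exact fun h => hj (congrFun h j)
  · funext j
    simp only [Pi.smul_apply, smul_eq_mul]
    exact GG_one _ _ _
  · funext j
    simp only [Pi.smul_apply, smul_eq_mul]
    exact GG_I _ _ _

end Pool.Agent.TH317.J369
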